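import Pool.Agent.Helper86.XU.BigN
import Pool.Agent.Helper86.XE.OneBig

/-!
# XU, L5: the sieve in the last coefficient, uniform in `q`
-/

set_option autoImplicit false

open Polynomial

namespace Pool.Agent.Helper86.XU

open Pool.Agent.Helper84.AA Pool.Agent.Helper19.AAT
open Pool.Agent.Helper86.XE

theorem log_rr {q : ℕ} (hq : 16 ≤ q) : Real.log (rr q) = Real.log q / 4 - Real.log 2 := by
  have hq0 : (0 : ℝ) < q := by
    have : (16 : ℝ) ≤ q := by exact_mod_cast hq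
    linarith
  have h4 : Real.log 4 = 2 * Real.log 2 := by
    rw [show (4 : ℝ) = 2 ^ 2 by norm_num, Real.log_pow]
    norm_num
  rw [rr, Real.log_sqrt (by positivity), Real.log_div (by positivity) (by norm_num),
    Real.log_sqrt hq0.le, h4]
  ring

theorem one_bigU_of (hR : ∃ c : ℝ, 0 < c ∧ ∀ q : ℕ, 16 ≤ q → ResBound q (c * Real.log q))
    (hDl : ∃ c : ℝ, 0 < c ∧ ∀ q : ℕ, 16 ≤ q → ∀ g : ℕ, 1 ≤ g → ∀ h : ℤ[X],
      IsTrace q g h → |((Delta q (h - C (h.coeff 0)) : ℤ) : ℝ)| ≤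
        Real.exp (c * Real.log q * (g : ℝ) ^ 2)) :
    ∃ d₀ : ℝ, 0 < d₀ ∧ ∃ G : ℕ, ∀ q : ℕ, 16 ≤ q → OneBigU q (d₀ * Real.log q) G := by
  obtain ⟨c, hc, hR⟩ := hR
  obtain ⟨c', hc', hDl⟩ := hDl
  obtain ⟨d, hd, G, hG⟩ := one_bigN count_core (fun q _ hm hd t => res_eq q hm hd t)
    (fun hq hg _ hm hd _ hl hlg _ h1 h3 => sep_at hq hg hm hd hl hlg h1 h3) conic_count
    sum_inv_primes_upper (8 * (2 + 3 * c)) (c₁ := 8 * c') (by positivity)
  refine ⟨d / 8, by positivity, max G 3, fun q hq g hg K hK1 hK2 W hgW hWg u hu hD hM => ?_⟩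
  have hGg : G ≤ g := le_trans (le_max_left _ _) hg
  have hg3 : 3 ≤ g := le_trans (le_max_right _ _) hg
  have hgR : (3 : ℝ) ≤ g := by exact_mod_cast hg3
  have hg0 : (0 : ℝ) < g := by linarith
  have hq16 : (16 : ℝ) ≤ q := by exact_mod_cast hq
  have hq0 : (0 : ℝ) < q := by linarith
  obtain ⟨lq, hlq⟩ : ∃ lq, lq = Real.log q := ⟨_, rfl⟩
  have hlq1 : 1 ≤ lq := by
    rw [hlq, Real.le_log_iff_exp_le hq0]
    have := Real.exp_one_lt_d9
    linarith
  have hlq0 : 0 < lq := by linarith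
  obtain ⟨κ, hκ⟩ : ∃ κ, κ = Real.log (101 / 100) := ⟨_, rfl⟩
  have hκ0 : 0 < κ := by
    rw [hκ]
    exact Real.log_pos (by norm_num)
  have hκ1 : κ ≤ 1 := by
    have := Real.log_le_sub_one_of_pos (show (0 : ℝ) < 101 / 100 by norm_num)
    rw [← hκ] at this
    linarith
  have hrr1 := one_le_rr hq
  have hrr0 : 0 < rr q := by linarith
  obtain ⟨ρ, hρ⟩ : ∃ ρ, ρ = Real.log (rr q) := ⟨_, rfl⟩
  have hρ0 : 0 ≤ ρ := by
    rw [hρ]
    exact Real.log_nonneg hrr1
  have hρq : ρ = lq / 4 - Real.log 2 := by rw [hρ, hlq, log_rr hq]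
  have hl2 : Real.log 2 ≤ 1 := by
    have := Real.log_two_lt_d9
    linarith
  -- the size parameter
  obtain ⟨x, hx⟩ : ∃ x : ℝ, x = g * (1 + ρ / κ) := ⟨_, rfl⟩
  have h1ρ : ρ ≤ ρ / κ := by
    rw [le_div_iff₀ hκ0]
    nlinarith
  have hxg : (g : ℝ) ≤ x := by
    rw [hx]
    have : 0 ≤ ρ / κ := div_nonneg hρ0 hκ0.le
    nlinarith
  have hx0 : 0 ≤ x := by linarith
  obtain ⟨N, hN⟩ : ∃ N : ℕ, N = ⌊x⌋₊ := ⟨_, rfl⟩
  have hNg : g ≤ N := by
    rw [hN]
    exact Nat.le_floor hxg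
  have hNgR : (g : ℝ) ≤ N := by exact_mod_cast hNg
  have hNx : (N : ℝ) ≤ x := by
    rw [hN]
    exact Nat.floor_le hx0
  have hNx2 : x / 2 ≤ N := by
    have h1 := (Nat.lt_floor_add_one x).le
    rw [← hN] at h1
    linarith
  have hN0 : (0 : ℝ) < N := by linarith
  have hN1 : (1 : ℝ) ≤ N := by linarith
  have hNl : g * lq / 8 ≤ (N : ℝ) := by
    refine le_trans ?_ hNx2
    rw [hx]
    have h1 : lq / 4 ≤ 1 + ρ / κ := by linarith
    have h2 : g * (lq / 4) ≤ g * (1 + ρ / κ) := mul_le_mul_of_nonneg_left h1 hg0.le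
    linarith
  have hNM : (101 / 100 : ℝ) ^ N ≤ ((Jset q g u).ncard : ℝ) := by
    refine le_trans ?_ hM
    have e1 : (101 / 100 : ℝ) ^ N = Real.exp (N * κ) := by
      rw [Real.exp_nat_mul, hκ, Real.exp_log (by norm_num)]
    have e2 : (101 / 100 * rr q) ^ g = Real.exp (g * (κ + ρ)) := by
      rw [Real.exp_nat_mul, Real.exp_add, hκ, hρ, Real.exp_log (by norm_num), Real.exp_log hrr0]
    rw [e1, e2]
    apply Real.exp_le_exp.2
    have e3 : x * κ = g * (κ + ρ) := by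
      rw [hx]
      field_simp
    rw [← e3]
    exact mul_le_mul_of_nonneg_right hNx hκ0.le
  have hNN : (N : ℝ) ≤ (N : ℝ) ^ 2 := by nlinarith
  -- the sizes
  have hsize : Real.log (8 * q) + 3 * (c * Real.log q * g) ≤ 8 * (2 + 3 * c) * (N : ℝ) ^ 2 := by
    have h8 : Real.log (8 * q) ≤ 2 * lq := by
      have h1 : Real.log (8 * q) ≤ Real.log ((q : ℝ) ^ 2) :=
        Real.log_le_log (by positivity) (by nlinarith)
      rw [Real.log_pow, ← hlq] at h1
      exact_mod_cast h1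
    rw [← hlq]
    have h2 : lq ≤ g * lq := by nlinarith
    calc Real.log (8 * q) + 3 * (c * lq * g) ≤ 2 * (g * lq) + 3 * (c * lq * g) := by linarith
      _ = (2 + 3 * c) * (g * lq) := by ring
      _ ≤ (2 + 3 * c) * (8 * (N : ℝ) ^ 2) := by
          refine mul_le_mul_of_nonneg_left ?_ (by positivity)
          linarith
      _ = 8 * (2 + 3 * c) * (N : ℝ) ^ 2 := by ring
  have hΔ : Real.log |((Delta q (X * u) : ℤ) : ℝ)| ≤ 8 * c' * (N : ℝ) ^ 2 := by
    obtain ⟨a, M, hJ⟩ := Jset_Ico q g u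
    have hMpos : 0 < M := by
      rcases Nat.eq_zero_or_pos M with h | h
      · exfalso
        rw [hJ, h] at hNM
        have h1 : (Set.Ico a (a + ((0 : ℕ) : ℤ)) : Set ℤ) = ∅ := by simp
        rw [h1, Set.ncard_empty] at hNM
        have h2 : (1 : ℝ) ≤ (101 / 100 : ℝ) ^ N := one_le_pow₀ (by norm_num)
        push_cast at hNM
        linarith
      · exact h
    have ha : a ∈ Jset q g u := by
      rw [hJ]; exact ⟨le_refl _, by
        have : (0 : ℤ) < M := by exact_mod_cast hMpos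
        linarith⟩
    have h1 := hDl q hq g (by omega) (X * u + C a) ha
    have h2 : (X * u + C a : ℤ[X]).coeff 0 = a := by simp
    rw [h2, add_sub_cancel_right] at h1
    have h3 : (0 : ℝ) < |((Delta q (X * u) : ℤ) : ℝ)| := by
      rw [abs_pos]
      exact_mod_cast hD
    have h4 := Real.log_le_log h3 h1
    rw [Real.log_exp, ← hlq] at h4
    refine h4.trans ?_
    have h5 : g * (g * lq / 8) ≤ (N : ℝ) * N :=
      mul_le_mul hNgR hNl (by positivity) hN0.le
    calc c' * lq * (g : ℝ) ^ 2 = 8 * c' * (g * (g * lq / 8)) := by ring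
      _ ≤ 8 * c' * (N * N) := mul_le_mul_of_nonneg_left h5 (by positivity)
      _ = 8 * c' * (N : ℝ) ^ 2 := by ring
  have hmain := hG N (hGg.trans hNg) q g (by omega) hg3 (c * Real.log q) (by rw [← hlq]; positivity)
    (hR q hq) hsize K hK1 (hK2.trans (Real.rpow_le_rpow hg0.le hNgR (by norm_num))) W hgW
    (hWg.trans (Real.rpow_le_rpow hg0.le hNgR (by linarith))) u hu hD hΔ hNM
  have hle : d / 8 * Real.log q * g ≤ d * N := by
    rw [← hlq]
    have := mul_le_mul_of_nonneg_left hNl hd.le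
    linarith
  have hsub : {t ∈ Jset q g u | ¬ BigW q W (Real.exp (d / 8 * Real.log q * g)) (X * u + C t)} ⊆
      {t ∈ Jset q g u | ¬ BigW q W (Real.exp (d * N)) (X * u + C t)} := by
    rintro t ⟨ht, hn⟩
    refine ⟨ht, fun ⟨L, hL, hY⟩ => hn ⟨L, hL, le_trans (Real.exp_le_exp.2 hle) hY⟩⟩
  have h4 := Set.ncard_le_ncard hsub ((Jset_finite q g u).subset fun t ht => ht.1)
  have hK0 : 0 < K := by linarith
  calc (({t ∈ Jset q g u | ¬ BigW q W (Real.exp (d / 8 * Real.log q * g))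
        (X * u + C t)}.ncard : ℕ) : ℝ)
      ≤ (({t ∈ Jset q g u | ¬ BigW q W (Real.exp (d * N)) (X * u + C t)}.ncard : ℕ) : ℝ) := by
        exact_mod_cast h4
    _ ≤ Real.exp (-(d * N / K)) * (Jset q g u).ncard := hmain
    _ ≤ Real.exp (-(d / 8 * Real.log q * g / K)) * (Jset q g u).ncard :=
        mul_le_mul_of_nonneg_right (Real.exp_le_exp.2 (neg_le_neg
          (div_le_div_of_nonneg_right hle hK0.le))) (Nat.cast_nonneg _)

end Pool.Agent.Helper86.XU
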