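import Pool.Agent.Helper86.XU.Core
import Pool.Agent.Helper86.XE.AsymB

/-!
# XU: the asymptotics in the size parameter `N`
-/

set_option autoImplicit false

open Polynomial

namespace Pool.Agent.Helper86.XU

open Pool.Agent.Helper84.AA Pool.Agent.Helper19.AAT
open Pool.Agent.Helper86.XE

theorem one_bigN (hCC : CountCore) (hRE : ResEq) (hSA : SepAt)
    (hconic : ∀ C₀ : ℝ, ∃ G : ℕ, ConicCount C₀ G) (hU : ∃ C : ℝ, MertU C) (C₀ : ℝ) {c₁ : ℝ}
    (hc₁0 : 0 ≤ c₁) :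
    ∃ d : ℝ, 0 < d ∧ ∃ G : ℕ, ∀ N ≥ G, ∀ q g : ℕ, 1 ≤ q → 3 ≤ g → ∀ c : ℝ, 0 ≤ c →
      ResBound q c → Real.log (8 * q) + 3 * (c * g) ≤ C₀ * (N : ℝ) ^ 2 →
      ∀ K : ℝ, 1 ≤ K → K ≤ (N : ℝ) ^ (9 / 10 : ℝ) →
      ∀ W : ℕ, g < W → (W : ℝ) ≤ (N : ℝ) ^ K → ∀ u ∈ preSet q g (g - 1), Delta q (X * u) ≠ 0 →
      Real.log |((Delta q (X * u) : ℤ) : ℝ)| ≤ c₁ * (N : ℝ) ^ 2 →
      (101 / 100 : ℝ) ^ N ≤ (Jset q g u).ncard →
      (({t ∈ Jset q g u | ¬ BigW q W (Real.exp (d * N)) (X * u + C t)}.ncard : ℕ) : ℝ) ≤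
        Real.exp (-(d * N / K)) * (Jset q g u).ncard := by
  obtain ⟨Cm, hU⟩ := hU
  obtain ⟨Gc, hGc⟩ := hconic C₀
  obtain ⟨κ, hκd⟩ : ∃ κ, κ = Real.log (101 / 100) := ⟨_, rfl⟩
  have hκ : 0 < κ := by
    rw [hκd]
    exact Real.log_pos (by norm_num)
  obtain ⟨c₂, hc₂⟩ : ∃ c₂ : ℝ, c₂ = 3 + |Cm| + c₁ := ⟨_, rfl⟩
  have hc₂0 : 0 < c₂ := by rw [hc₂]; positivity
  -- eventual inequalities
  have hlogt : Filter.Tendsto (fun n : ℕ => Real.log (n : ℝ)) Filter.atTop Filter.atTop :=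
    Real.tendsto_log_atTop.comp tendsto_natCast_atTop_atTop
  have hlog2 : Filter.Tendsto (fun n : ℕ => Real.log (n : ℝ) / 20) Filter.atTop Filter.atTop :=
    hlogt.atTop_div_const (by norm_num)
  have hexp : Filter.Tendsto (fun n : ℕ => (Real.log (n : ℝ) / 20) ^ 2 *
      Real.exp (-(Real.log (n : ℝ) / 20))) Filter.atTop (nhds 0) :=
    (Real.tendsto_pow_mul_exp_neg_atTop_nhds_zero 2).comp hlog2
  obtain ⟨G₁, hG₁⟩ := Filter.eventually_atTop.1 (hexp.eventually (gt_mem_nhds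
    (show (0 : ℝ) < κ / (160000 * Real.exp 1 * c₂) by positivity)))
  have hexp1 : Filter.Tendsto (fun n : ℕ => (Real.log (n : ℝ) / 20) ^ 1 *
      Real.exp (-(Real.log (n : ℝ) / 20))) Filter.atTop (nhds 0) :=
    (Real.tendsto_pow_mul_exp_neg_atTop_nhds_zero 1).comp hlog2
  obtain ⟨G₂, hG₂⟩ := Filter.eventually_atTop.1 (hexp1.eventually (gt_mem_nhds
    (show (0 : ℝ) < κ / 4000 by positivity)))
  obtain ⟨G₃, hG₃⟩ := Filter.eventually_atTop.1 (hlog2.eventually_ge_atTop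
    (Real.log 8 * 8000 / κ))
  obtain ⟨G₄, hG₄⟩ := exists_nat_ge (2 + 2 * c₁)
  refine ⟨κ / 8000, by positivity, max (max (max Gc G₁) (max G₂ G₃)) (max G₄ 3),
    fun N hN q g hq hg3 c hc hRB hC₀ K hK hKg W hgW hWK u hu hD hDl hM => ?_⟩
  have g1 : Gc ≤ N := le_trans (by simp) hN
  have g2 : G₁ ≤ N := le_trans (by simp) hN
  have g3 : G₂ ≤ N := le_trans (by simp) hN
  have g4 : G₃ ≤ N := le_trans (by simp) hN
  have g5 : G₄ ≤ N := le_trans (by simp) hN
  have g6 : 3 ≤ N := le_trans (by simp) hN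
  have hgR : (3 : ℝ) ≤ N := by exact_mod_cast g6
  have hg0 : (0 : ℝ) < N := by linarith
  have hg1 : (1 : ℝ) ≤ N := by linarith
  have hK0 : 0 < K := by linarith
  obtain ⟨ε, hε⟩ : ∃ ε, ε = κ / (200 * K) := ⟨_, rfl⟩
  have hε0 : 0 < ε := by rw [hε]; positivity
  obtain ⟨δ, hδ⟩ : ∃ δ, δ = ε / 40 := ⟨_, rfl⟩
  have hδ0 : 0 < δ := by rw [hδ]; positivity
  have hδK : κ / 8000 * N / K = δ * N := by
    rw [hδ, hε]
    field_simp
    norm_num
  obtain ⟨L, hL⟩ : ∃ L, L = Real.log N := ⟨_, rfl⟩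
  have hL1 : 1 ≤ L := by
    rw [hL, Real.le_log_iff_exp_le hg0]
    have := Real.exp_one_lt_d9
    linarith
  have hL0 : 0 < L := by linarith
  have hexpL : Real.exp L = N := by rw [hL, Real.exp_log hg0]
  have hrpow : ∀ x : ℝ, (N : ℝ) ^ x = Real.exp (L * x) := fun x => by
    rw [Real.rpow_def_of_pos hg0, hL]
  obtain ⟨j, hj⟩ : ∃ j, j = ⌈ε * N / L⌉₊ := ⟨_, rfl⟩
  have hj1 : ε * N / L ≤ j := by rw [hj]; exact Nat.le_ceil _
  have hj2 : (j : ℝ) ≤ ε * N / L + 1 := by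
    rw [hj]
    exact (Nat.ceil_lt_add_one (by positivity)).le
  rw [hδK]
  have hY1 : 1 ≤ Real.exp (κ / 8000 * N) := Real.one_le_exp (by positivity)
  have hcore := one_coreU hCC hRE hSA hq hg3 hgW hRB hGc g1 hc hC₀ j hY1 u hu hD hM
  refine hcore.trans ?_
  -- the size of `Delta`
  obtain ⟨Δ, hΔ⟩ : ∃ Δ : ℤ, Δ = Delta q (X * u) := ⟨_, rfl⟩
  rw [← hΔ] at hD ⊢
  have hlogD : Real.log |(Δ : ℝ)| ≤ c₁ * (N : ℝ) ^ 2 := by
    rw [hΔ]
    exact hDl
  -- the threshold `z = max W (N ^ 2)`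
  obtain ⟨z, hz⟩ : ∃ z : ℕ, z = max W (N ^ 2) := ⟨_, rfl⟩
  have hgz : N ^ 2 ≤ z := by rw [hz]; exact le_max_right _ _
  have hz3 : 3 ≤ z := g6.trans ((Nat.le_self_pow (by norm_num) N).trans hgz)
  have hWz : W ≤ z := by rw [hz]; exact le_max_left _ _
  have hgzR : (N : ℝ) ^ 2 ≤ z := by exact_mod_cast hgz
  have hz0 : (0 : ℝ) < z := by exact_mod_cast (by omega : 0 < z)
  have hLK : L ≤ K * L := le_mul_of_one_le_left hL0.le hK
  have hg2K : (N : ℝ) ^ 2 ≤ Real.exp (2 * K * L) := by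
    have h1 : (N : ℝ) ^ 2 = Real.exp (2 * L) := by
      rw [← hexpL, ← Real.exp_nat_mul]
      norm_num
    rw [h1]
    apply Real.exp_le_exp.2
    linarith
  have hWK' : (W : ℝ) ≤ Real.exp (K * L) := by
    rw [hrpow, mul_comm] at hWK
    exact hWK
  have hzK : (z : ℝ) ≤ Real.exp (2 * K * L) := by
    rw [hz]
    push_cast
    refine max_le (hWK'.trans (Real.exp_le_exp.2 ?_)) hg2K
    linarith
  have hz3R : (3 : ℝ) ≤ z := by exact_mod_cast hz3
  have hlogz : Real.log z ≤ 2 * K * L := by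
    have := Real.log_le_log hz0 hzK
    rwa [Real.log_exp] at this
  have hlogz1 : 0 < Real.log z := Real.log_pos (by linarith)
  have hlogK : Real.log K ≤ L := by
    have h1 := Real.log_le_log hK0 hKg
    rw [hrpow, Real.log_exp] at h1
    linarith
  have hll : Real.log (Real.log z) ≤ 3 * L := by
    have h1 := Real.log_le_log hlogz1 hlogz
    rw [Real.log_mul (by positivity) (by positivity),
      Real.log_mul (by norm_num) (by positivity)] at h1
    have h2 : Real.log 2 ≤ 1 := by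
      have := Real.log_two_lt_d9
      linarith
    have h3 : Real.log L ≤ L - 1 := Real.log_le_sub_one_of_pos hL0
    linarith
  -- the sum of the inverses
  have hs : ∑ l ∈ SS W Δ, (1 : ℝ) / l ≤ c₂ * L := by
    refine (SS_sumB hU hD hz3 hWz).trans ?_
    have h2 : Real.log |(Δ : ℝ)| / z ≤ c₁ := by
      rw [div_le_iff₀ hz0]
      exact hlogD.trans (mul_le_mul_of_nonneg_left hgzR hc₁0)
    have h3 : Cm ≤ |Cm| := le_abs_self _
    have h4 : (|Cm| + c₁) * 1 ≤ (|Cm| + c₁) * L :=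
      mul_le_mul_of_nonneg_left hL1 (by positivity)
    calc Real.log (Real.log z) + Cm + Real.log |(Δ : ℝ)| / z
        ≤ 3 * L + |Cm| + c₁ := add_le_add (add_le_add hll h3) h2
      _ ≤ c₂ * L := by
          rw [hc₂]
          linarith
  have hs0 : 0 ≤ ∑ l ∈ SS W Δ, (1 : ℝ) / l := Finset.sum_nonneg fun _ _ => by positivity
  have hKexp : K ≤ Real.exp (L * (9 / 10)) := by rwa [← hrpow]
  have hbig : 2 * Real.exp 1 * (∑ l ∈ SS W Δ, (1 : ℝ) / l) * L / (ε * N) ≤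
      Real.exp (-(L / 20)) := by
    have h1 := hG₁ N g2
    rw [← hL, lt_div_iff₀ (by positivity)] at h1
    have h2 : 400 * Real.exp 1 * c₂ * L ^ 2 ≤ κ * Real.exp (L / 20) := by
      have h3 : (L / 20) ^ 2 * Real.exp (-(L / 20)) * (160000 * Real.exp 1 * c₂) =
          400 * Real.exp 1 * c₂ * L ^ 2 * Real.exp (-(L / 20)) := by ring
      rw [h3] at h1
      calc 400 * Real.exp 1 * c₂ * L ^ 2
          = (400 * Real.exp 1 * c₂ * L ^ 2 * Real.exp (-(L / 20))) * Real.exp (L / 20) := by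
            rw [mul_assoc _ (Real.exp (-(L / 20))), ← Real.exp_add, neg_add_cancel,
              Real.exp_zero, mul_one]
        _ ≤ κ * Real.exp (L / 20) := mul_le_mul_of_nonneg_right h1.le (Real.exp_pos _).le
    rw [div_le_iff₀ (by positivity)]
    have h5 : ε * N = κ * N / (200 * K) := by rw [hε]; ring
    rw [h5]
    have h6 : Real.exp (-(L / 20)) * (κ * N / (200 * K)) =
        (κ * (Real.exp (-(L / 20)) * N)) / (200 * K) := by ring
    rw [h6, le_div_iff₀ (by positivity)]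
    have h7 : Real.exp (L / 20) * Real.exp (L * (9 / 10)) = Real.exp (-(L / 20)) * N := by
      rw [← hexpL, ← Real.exp_add, ← Real.exp_add]
      congr 1
      ring
    calc 2 * Real.exp 1 * (∑ l ∈ SS W Δ, (1 : ℝ) / l) * L * (200 * K)
        ≤ 2 * Real.exp 1 * (c₂ * L) * L * (200 * K) := by gcongr
      _ = (400 * Real.exp 1 * c₂ * L ^ 2) * K := by ring
      _ ≤ (κ * Real.exp (L / 20)) * Real.exp (L * (9 / 10)) :=
          mul_le_mul h2 hKexp hK0.le (by positivity)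
      _ = κ * (Real.exp (-(L / 20)) * N) := by rw [mul_assoc, h7]
  -- the number of excluded primes
  have hn : ((SS W Δ).card : ℝ) + 1 ≤ Real.exp ((K + 3) * L) := by
    have h1 := SS_card (W := W) hD
    have h3 : Real.exp ((K + 3) * L) = Real.exp (K * L) * (N : ℝ) ^ 2 * N := by
      rw [← hexpL, ← Real.exp_nat_mul, ← Real.exp_add, ← Real.exp_add]
      congr 1
      push_cast
      ring
    have h5 : 2 + 2 * c₁ ≤ (N : ℝ) := hG₄.trans (by exact_mod_cast g5)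
    have h6 : 1 ≤ Real.exp (K * L) := Real.one_le_exp (by positivity)
    have h7 : (1 : ℝ) ≤ (N : ℝ) ^ 2 := one_le_pow₀ hg1
    have h8 : (0 : ℝ) ≤ Real.exp (K * L) * (N : ℝ) ^ 2 := by positivity
    have h9 : Real.exp (K * L) ≤ Real.exp (K * L) * (N : ℝ) ^ 2 :=
      le_mul_of_one_le_right (Real.exp_pos _).le h7
    have h10 : (N : ℝ) ^ 2 ≤ Real.exp (K * L) * (N : ℝ) ^ 2 :=
      le_mul_of_one_le_left (by positivity) h6
    rw [h3]
    calc ((SS W Δ).card : ℝ) + 1 ≤ Real.exp (K * L) + 2 * (c₁ * (N : ℝ) ^ 2) + 1 := by linarith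
      _ ≤ Real.exp (K * L) * (N : ℝ) ^ 2 + 2 * (c₁ * (Real.exp (K * L) * (N : ℝ) ^ 2)) +
          Real.exp (K * L) * (N : ℝ) ^ 2 := by
          have := mul_le_mul_of_nonneg_left h10 hc₁0
          linarith
      _ = Real.exp (K * L) * (N : ℝ) ^ 2 * (2 + 2 * c₁) := by ring
      _ ≤ Real.exp (K * L) * (N : ℝ) ^ 2 * N := mul_le_mul_of_nonneg_left h5 h8
  have hMe : Real.exp (κ * N) ≤ ((Jset q g u).ncard : ℝ) := by
    refine le_trans (le_of_eq ?_) hM
    rw [hκd, mul_comm, Real.exp_nat_mul, Real.exp_log (by norm_num)]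
  have hL10 : L ≤ κ / 200 * Real.exp (L / 10) := by
    have h1 := hG₂ N g3
    rw [← hL, pow_one] at h1
    have h2 : L / 20 ≤ κ / 4000 * Real.exp (L / 20) := by
      calc L / 20 = (L / 20 * Real.exp (-(L / 20))) * Real.exp (L / 20) := by
            rw [mul_assoc, ← Real.exp_add, neg_add_cancel, Real.exp_zero, mul_one]
        _ ≤ κ / 4000 * Real.exp (L / 20) :=
            mul_le_mul_of_nonneg_right h1.le (Real.exp_pos _).le
    have h3 : Real.exp (L / 20) ≤ Real.exp (L / 10) := Real.exp_le_exp.2 (by linarith)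
    have h4 := mul_le_mul_of_nonneg_left h3 (show (0 : ℝ) ≤ κ / 200 by positivity)
    linarith
  have h910 : Real.exp (L * (9 / 10)) * Real.exp (L / 10) = N := by
    rw [← Real.exp_add, ← hexpL]
    congr 1
    ring
  have hKL : (K + 4) * L ≤ κ * N / 40 := by
    calc (K + 4) * L ≤ 5 * K * L := mul_le_mul_of_nonneg_right (by linarith) hL0.le
      _ ≤ 5 * Real.exp (L * (9 / 10)) * (κ / 200 * Real.exp (L / 10)) := by gcongr
      _ = κ / 40 * (Real.exp (L * (9 / 10)) * Real.exp (L / 10)) := by ring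
      _ = κ * N / 40 := by rw [h910]; ring
  have h8 : Real.log 8 ≤ δ * N := by
    have h1 := hG₃ N g4
    rw [← hL] at h1
    have h2 : Real.log 8 * 8000 / κ ≤ Real.exp (L / 10) := by
      have h3 := Real.add_one_le_exp (L / 10)
      linarith
    rw [div_le_iff₀ hκ] at h2
    have h4 : δ * N = κ * N / (8000 * K) := by
      rw [hδ, hε]
      field_simp
      norm_num
    rw [h4, le_div_iff₀ (by positivity)]
    have h80 : 0 ≤ Real.log 8 := Real.log_nonneg (by norm_num)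
    calc Real.log 8 * (8000 * K) = (Real.log 8 * 8000) * K := by ring
      _ ≤ (Real.exp (L / 10) * κ) * Real.exp (L * (9 / 10)) :=
          mul_le_mul h2 hKexp hK0.le (by positivity)
      _ = κ * (Real.exp (L * (9 / 10)) * Real.exp (L / 10)) := by ring
      _ = κ * N := by rw [h910]
  exact num_finalB hκ hK hε hδ (by positivity : (0 : ℝ) ≤ κ / 8000) (by linarith) hL1 hg0 hj1 hj2 hs0 hbig hMe (Nat.cast_nonneg _) hn rfl hKL h8

end Pool.Agent.Helper86.XU
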