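import Pool.Agent.Helper86.XU.Defs

/-!
# XU: one prefix, with a separate size parameter `N`
-/

set_option autoImplicit false

open Polynomial

namespace Pool.Agent.Helper86.XU

open Pool.Agent.Helper84.AA Pool.Agent.Helper19.AAT
open Pool.Agent.Helper86.XE

theorem one_coreU (hCC : CountCore) (hRE : ResEq) (hSA : SepAt) {q g W N : ℕ} (hq : 1 ≤ q) (hg : 3 ≤ g)
    (hgW : g < W) {c C₀ : ℝ} {G : ℕ} (hRB : ResBound q c) (hconic : ConicCount C₀ G) (hNG : G ≤ N)
    (hc : 0 ≤ c) (hC₀ : Real.log (8 * q) + 3 * (c * g) ≤ C₀ * (N : ℝ) ^ 2) (j : ℕ) {Y : ℝ} (hY : 1 ≤ Y)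
    (u : ℤ[X]) (hu : u ∈ preSet q g (g - 1)) (hD : Delta q (X * u) ≠ 0)
    (hM : (101 / 100 : ℝ) ^ N ≤ (Jset q g u).ncard) :
    (({t ∈ Jset q g u | ¬ BigW q W Y (X * u + C t)}.ncard : ℕ) : ℝ) ≤
      2 ^ j * ((Jset q g u).ncard * ((∑ l ∈ SS W (Delta q (X * u)), (1 : ℝ) / l) ^ j / j.factorial) +
        ((SS W (Delta q (X * u))).card : ℝ) ^ j) +
      (2 * Y * (((SS W (Delta q (X * u))).card : ℝ) + 1) ^ j + 1) *
        (2 * ((Jset q g u).ncard : ℝ) ^ (9 / 10 : ℝ)) := by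
  classical
  have hgR : (3 : ℝ) ≤ g := by exact_mod_cast hg
  obtain ⟨a, M, hJ⟩ := Jset_Ico q g u
  have hJc : (Jset q g u).ncard = M := by
    rw [hJ]
    have : (Set.Ico a (a + M) : Set ℤ) = ((Finset.Ico a (a + (M : ℤ)) : Finset ℤ) : Set ℤ) := by
      simp
    rw [this, Set.ncard_coe_finset]
    simp
  rw [hJc] at hM ⊢
  obtain ⟨hum, hud⟩ := pre_monic (q := q) (g := g) (n := g - 1) (by omega) hu
  have hHm : (X * u).Monic := monic_X.mul hum
  have hHd : (X * u).natDegree = g := by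
    rw [natDegree_X_mul hum.ne_zero, hud]; omega
  have hpow1 : (1 : ℝ) ≤ (101 / 100 : ℝ) ^ N := one_le_pow₀ (by norm_num)
  have hM1 : (1 : ℝ) ≤ M := le_trans hpow1 hM
  have hMpos : 0 < M := by
    have : (0 : ℝ) < M := by linarith
    exact_mod_cast this
  have haJ : a ∈ Jset q g u := by
    rw [hJ]; exact ⟨le_refl _, by
      have : (0 : ℤ) < M := by exact_mod_cast hMpos
      linarith⟩
  have hJt : ∀ t ∈ Finset.Ico a (a + (M : ℤ)), IsTrace q g (X * u + C t) := by
    intro t ht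
    have : t ∈ Jset q g u := by
      rw [hJ]
      exact Finset.mem_Ico.1 ht
    exact this
  have hodO : odO q (X * u) ≠ 0 := by
    intro h
    apply hD
    rw [Delta, h]
    ring
  have hq0 : (q : ℤ) ≠ 0 := by omega
  set e : ℤ := evE q (X * u) with he
  set D : ℤ := 4 * q * odO q (X * u) ^ 2 with hDd
  have hD0 : D ≠ 0 := by
    rw [hDd]
    positivity
  have hobd := (hRB g (by omega) u a haJ).1
  have hcg : 0 ≤ c * g := mul_nonneg hc (by linarith)
  -- the sizes
  have hDabs : |((2 * D : ℤ) : ℝ)| ≤ (8 * q) * Real.exp (c * g) ^ 2 := by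
    rw [hDd]
    push_cast
    have h1 : (2 * (4 * (q : ℝ) * (odO q (X * u) : ℝ) ^ 2)) =
        (8 * q) * (|((odO q (X * u) : ℤ) : ℝ)| ^ 2) := by
      rw [sq_abs]; ring
    rw [h1, abs_of_nonneg (by positivity)]
    exact mul_le_mul_of_nonneg_left (pow_le_pow_left₀ (abs_nonneg _) hobd 2) (by positivity)
  have hq1 : (1 : ℝ) ≤ q := by exact_mod_cast hq
  have hlog : ∀ s : ℤ, s ≠ 0 → |(s : ℝ)| ≤ Real.exp (c * g) →
      Real.log |((2 * s * D : ℤ) : ℝ)| ≤ C₀ * (N : ℝ) ^ 2 := by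
    intro s hs hsb
    have h1 : |((2 * s * D : ℤ) : ℝ)| ≤ Real.exp (Real.log (8 * q) + 3 * (c * g)) := by
      have h2 : |((2 * s * D : ℤ) : ℝ)| = |(s : ℝ)| * |((2 * D : ℤ) : ℝ)| := by
        rw [← abs_mul]
        congr 1
        push_cast
        ring
      rw [h2]
      calc |(s : ℝ)| * |((2 * D : ℤ) : ℝ)| ≤
          Real.exp (c * g) * ((8 * q) * Real.exp (c * g) ^ 2) :=
            mul_le_mul hsb hDabs (abs_nonneg _) (Real.exp_pos _).le
        _ = Real.exp (Real.log (8 * q) + 3 * (c * g)) := by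
            rw [Real.exp_add, Real.exp_log (by positivity)]
            have : Real.exp (3 * (c * g)) = Real.exp (c * g) ^ 3 := by
              rw [← Real.exp_nat_mul]
              norm_num
            rw [this]
            ring
    have h3 : (0 : ℝ) < |((2 * s * D : ℤ) : ℝ)| := by
      rw [abs_pos]
      exact_mod_cast mul_ne_zero (mul_ne_zero two_ne_zero hs) hD0
    have h4 := Real.log_le_log h3 h1
    rw [Real.log_exp] at h4
    exact h4.trans hC₀
  set T : Finset ℤ := (Finset.Ico a (a + (M : ℤ))).filter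
    fun t => ¬ BigW q W Y (X * u + C t) with hT
  have hTc : {t ∈ Jset q g u | ¬ BigW q W Y (X * u + C t)}.ncard = T.card := by
    rw [← Set.ncard_coe_finset]
    congr 1
    ext t
    rw [hJ, hT]
    simp
  rw [hTc]
  refine hCC a M (SS W (Delta q (X * u))) (fun l hl => SS_prime hl) e D hD0 j Y _ hY
    (by positivity) ?_ T (Finset.filter_subset _ _) ?_
  · intro s hs hs1 A hA hAy
    refine hconic N hNG M hM (a + e) D s hD0 hs (hlog s hs ?_) A hA hAy
    rcases hs1 with hs1 | ⟨t, ht, hst⟩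
    · rw [hs1]
      simpa using Real.one_le_exp hcg
    · have h1 := (hRB g (by omega) u t (hJt t ht)).2
      refine le_trans ?_ h1
      rw [← he, ← hDd]
      exact_mod_cast hst
  · intro t ht B hB
    rw [hT, Finset.mem_filter] at ht
    by_contra hcon
    apply ht.2
    refine ⟨B, fun l hl => ?_, not_lt.1 hcon⟩
    obtain ⟨b1, b2, b3, b4⟩ := hB l hl
    obtain ⟨b5, b6⟩ := not_mem_SS hD b2 b1
    refine ⟨b5, b2, ?_, ?_⟩
    · exact hSA hq (by omega) hHm hHd b2 (hgW.trans b5) b3 b6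
    · rw [hRE q hHm (by omega) t]
      exact b4

end Pool.Agent.Helper86.XU
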