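import Pool.Agent.Helper19.AAE.Result
import Pool.Agent.Helper86.XE.LowBad

/-!
# AAE, constants independent of `q`: definitions
-/

set_option autoImplicit false

open Polynomial

namespace Pool.Agent.Helper86.XU

open Pool.Agent.Helper84.AA
open Pool.Agent.Helper86.XE

/-- `√q = 4 rr ^ 2`. -/
noncomputable def rr (q : ℕ) : ℝ := √(√(q : ℝ) / 4)

theorem rr_sq (q : ℕ) : √(q : ℝ) = 4 * rr q ^ 2 := by
  rw [rr, Real.sq_sqrt (by positivity)]
  ring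

theorem one_le_rr {q : ℕ} (hq : 16 ≤ q) : 1 ≤ rr q := by
  have h := sigma_ge hq
  rw [rr]
  apply Real.le_sqrt_of_sq_le
  linarith

/-- The sieve in the last coefficient, with a threshold that depends on `q`. -/
def OneBigU (q : ℕ) (δ : ℝ) (G : ℕ) : Prop :=
  ∀ g ≥ G, ∀ K : ℝ, 1 ≤ K → K ≤ (g : ℝ) ^ (9 / 10 : ℝ) → ∀ W : ℕ, g < W → (W : ℝ) ≤ (g : ℝ) ^ K →
    ∀ u ∈ preSet q g (g - 1), Delta q (X * u) ≠ 0 →
    (101 / 100 * rr q) ^ g ≤ ((Jset q g u).ncard : ℝ) →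
    (({t ∈ Jset q g u | ¬ BigW q W (Real.exp (δ * g)) (X * u + C t)}.ncard : ℕ) : ℝ) ≤
      Real.exp (-(δ * g / K)) * (Jset q g u).ncard

end Pool.Agent.Helper86.XU
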