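import Pool.Agent.Helper86.XU.Big
import Pool.Agent.Helper94.XU.L4

/-!
L5 of project XU, closed: the sieve with constants independent of `q`.
-/

namespace Pool.Agent.Helper86.XU

/-- L5: the sieve, uniform in `q`. -/
theorem one_bigU : ∃ d₀ : ℝ, 0 < d₀ ∧ ∃ G : ℕ, ∀ q : ℕ, 16 ≤ q →
    OneBigU q (d₀ * Real.log q) G :=
  one_bigU_of res_boundU delta_boundU

end Pool.Agent.Helper86.XU
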